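import Pool.Agent.H24.Near.Index

set_option autoImplicit false

/-!
# Tools: derivatives of products, cutoffs, areas (public copies of lemmas of `H24/Near/Step`)
-/

namespace Pool.Agent.H26.Yau

open MeasureTheory Set Metric Pool.Agent.H24.Near

/-! ### Derivatives -/

lemma der_add {f g : ℝ × ℝ → ℝ} (hf : Smooth f) (hg : Smooth g) :
    ∀ w : List Bool, der w (fun x => f x + g x) = fun x => der w f x + der w g x
  | [] => rfl
  | false :: w => by
    funext p
    show d1 (der w (fun x => f x + g x)) p = d1 (der w f) p + d1 (der w g) p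
    rw [der_add hf hg w]
    exact d1_add ((hf.der w).differentiable p) ((hg.der w).differentiable p)
  | true :: w => by
    funext p
    show d2 (der w (fun x => f x + g x)) p = d2 (der w f) p + d2 (der w g) p
    rw [der_add hf hg w]
    exact d2_add ((hf.der w).differentiable p) ((hg.der w).differentiable p)

lemma der_const_mul {f : ℝ × ℝ → ℝ} (hf : Smooth f) (c : ℝ) :
    ∀ w : List Bool, der w (fun x => c * f x) = fun x => c * der w f x
  | [] => rfl
  | false :: w => by
    funext p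
    show d1 (der w (fun x => c * f x)) p = c * d1 (der w f) p
    rw [der_const_mul hf c w]
    exact d1_const_mul c ((hf.der w).differentiable p)
  | true :: w => by
    funext p
    show d2 (der w (fun x => c * f x)) p = c * d2 (der w f) p
    rw [der_const_mul hf c w]
    exact d2_const_mul c ((hf.der w).differentiable p)

lemma abs_der_const_le (c : ℝ) :
    ∀ (w : List Bool) (p : ℝ × ℝ), |der w (fun _ => c) p| ≤ |c| := by
  have h : ∀ w : List Bool, ∃ a : ℝ, |a| ≤ |c| ∧ der w (fun _ : ℝ × ℝ => c) = fun _ => a := by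
    intro w
    induction w with
    | nil => exact ⟨c, le_rfl, rfl⟩
    | cons b w ih =>
      obtain ⟨a, ha, hw⟩ := ih
      refine ⟨0, by simp, ?_⟩
      funext p
      cases b
      · show d1 (der w (fun _ : ℝ × ℝ => c)) p = 0
        rw [hw]; exact d1_const a p
      · show d2 (der w (fun _ : ℝ × ℝ => c)) p = 0
        rw [hw]; exact d2_const a p
  intro w p
  obtain ⟨a, ha, hw⟩ := h w
  rw [hw]
  exact ha

noncomputable def sm (f g : ℝ × ℝ → ℝ) (l : List (List Bool × List Bool))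
    (p : ℝ × ℝ) : ℝ := (l.map fun x => der x.1 f p * der x.2 g p).sum

lemma sm_cons (f g : ℝ × ℝ → ℝ) (x : List Bool × List Bool)
    (l : List (List Bool × List Bool)) :
    sm f g (x :: l) = fun p => der x.1 f p * der x.2 g p + sm f g l p := by
  funext p; simp [sm]

lemma sm_append (f g : ℝ × ℝ → ℝ) (l l' : List (List Bool × List Bool)) (p : ℝ × ℝ) :
    sm f g (l ++ l') p = sm f g l p + sm f g l' p := by
  simp [sm]

lemma smooth_sm {f g : ℝ × ℝ → ℝ} (hf : Smooth f) (hg : Smooth g)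
    (l : List (List Bool × List Bool)) : Smooth (sm f g l) := by
  induction l with
  | nil =>
    have : sm f g [] = fun _ => 0 := by funext p; simp [sm]
    rw [this]
    exact contDiff_const
  | cons x l ih =>
    rw [sm_cons]
    exact ((hf.der x.1).mul (hg.der x.2)).add ih

lemma d1_sm {f g : ℝ × ℝ → ℝ} (hf : Smooth f) (hg : Smooth g)
    (l : List (List Bool × List Bool)) (p : ℝ × ℝ) :
    d1 (sm f g l) p = sm f g ((l.map fun x => (false :: x.1, x.2)) ++
      (l.map fun x => (x.1, false :: x.2))) p := by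
  induction l with
  | nil =>
    have : sm f g [] = fun _ => 0 := by funext p; simp [sm]
    rw [this, d1_const]
    simp [sm]
  | cons x l ih =>
    have hs : Smooth (fun p => der x.1 f p * der x.2 g p) := (hf.der x.1).mul (hg.der x.2)
    rw [sm_cons, d1_add (hs.differentiable p) ((smooth_sm hf hg l).differentiable p), ih,
      d1_mul ((hf.der x.1).differentiable p) ((hg.der x.2).differentiable p)]
    simp only [sm_append, List.map_cons, sm_cons, der]
    ring

lemma d2_sm {f g : ℝ × ℝ → ℝ} (hf : Smooth f) (hg : Smooth g)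
    (l : List (List Bool × List Bool)) (p : ℝ × ℝ) :
    d2 (sm f g l) p = sm f g ((l.map fun x => (true :: x.1, x.2)) ++
      (l.map fun x => (x.1, true :: x.2))) p := by
  induction l with
  | nil =>
    have : sm f g [] = fun _ => 0 := by funext p; simp [sm]
    rw [this, d2_const]
    simp [sm]
  | cons x l ih =>
    have hs : Smooth (fun p => der x.1 f p * der x.2 g p) := (hf.der x.1).mul (hg.der x.2)
    rw [sm_cons, d2_add (hs.differentiable p) ((smooth_sm hf hg l).differentiable p), ih,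
      d2_mul ((hf.der x.1).differentiable p) ((hg.der x.2).differentiable p)]
    simp only [sm_append, List.map_cons, sm_cons, der]
    ring

/-- derivatives of a product -/
lemma leibniz {f g : ℝ × ℝ → ℝ} (hf : Smooth f) (hg : Smooth g) :
    ∀ w : List Bool, ∃ l : List (List Bool × List Bool), l.length = 2 ^ w.length ∧
      (∀ x ∈ l, x.1.length ≤ w.length ∧ x.2.length ≤ w.length) ∧
      der w (fun x => f x * g x) = sm f g l := by
  intro w
  induction w with
  | nil => exact ⟨[([], [])], rfl, by simp, by funext p; simp [der, sm]⟩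
  | cons b w ih =>
    obtain ⟨l, hl, hlen, hw⟩ := ih
    cases b
    · refine ⟨(l.map fun x => (false :: x.1, x.2)) ++ (l.map fun x => (x.1, false :: x.2)),
        ?_, ?_, ?_⟩
      · simp only [List.length_append, List.length_map, hl, List.length_cons]
        ring
      · intro x hx
        simp only [List.mem_append, List.mem_map] at hx
        rcases hx with ⟨y, hy, rfl⟩ | ⟨y, hy, rfl⟩
        · have := hlen y hy
          simp only [List.length_cons]
          omega
        · have := hlen y hy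
          simp only [List.length_cons]
          omega
      · funext p
        show d1 (der w (fun x => f x * g x)) p = _
        rw [hw]
        exact d1_sm hf hg l p
    · refine ⟨(l.map fun x => (true :: x.1, x.2)) ++ (l.map fun x => (x.1, true :: x.2)),
        ?_, ?_, ?_⟩
      · simp only [List.length_append, List.length_map, hl, List.length_cons]
        ring
      · intro x hx
        simp only [List.mem_append, List.mem_map] at hx
        rcases hx with ⟨y, hy, rfl⟩ | ⟨y, hy, rfl⟩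
        · have := hlen y hy
          simp only [List.length_cons]
          omega
        · have := hlen y hy
          simp only [List.length_cons]
          omega
      · funext p
        show d2 (der w (fun x => f x * g x)) p = _
        rw [hw]
        exact d2_sm hf hg l p

lemma abs_der_mul_le {f g : ℝ × ℝ → ℝ} (hf : Smooth f) (hg : Smooth g) {a b : ℝ}
    {p : ℝ × ℝ} (ha : ∀ w : List Bool, w.length ≤ 3 → |der w f p| ≤ a)
    (hb : ∀ w : List Bool, w.length ≤ 3 → |der w g p| ≤ b) (w : List Bool) (hw : w.length ≤ 3) :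
    |der w (fun x => f x * g x) p| ≤ 8 * (a * b) := by
  obtain ⟨l, hl, hlen, he⟩ := leibniz hf hg w
  have ha0 : 0 ≤ a := (abs_nonneg _).trans (ha [] (by simp))
  have hb0 : 0 ≤ b := (abs_nonneg _).trans (hb [] (by simp))
  rw [he]
  have h1 : ∀ l' : List (List Bool × List Bool), (∀ x ∈ l', x.1.length ≤ 3 ∧ x.2.length ≤ 3) →
      |sm f g l' p| ≤ l'.length * (a * b) := by
    intro l' hl'
    induction l' with
    | nil => simp [sm]
    | cons x l' ih =>
      simp only [sm_cons, List.length_cons]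
      have h2 := ih fun y hy => hl' y (List.mem_cons_of_mem _ hy)
      have h3 := hl' x List.mem_cons_self
      have h4 : |der x.1 f p * der x.2 g p| ≤ a * b := by
        rw [abs_mul]
        exact mul_le_mul (ha _ h3.1) (hb _ h3.2) (abs_nonneg _) ha0
      push_cast
      calc |der x.1 f p * der x.2 g p + sm f g l' p|
          ≤ |der x.1 f p * der x.2 g p| + |sm f g l' p| :=
            abs_add_le _ _
        _ ≤ a * b + l'.length * (a * b) := add_le_add h4 h2
        _ = (l'.length + 1) * (a * b) := by ring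
  have h5 := h1 l fun x hx => ⟨(hlen x hx).1.trans hw, (hlen x hx).2.trans hw⟩
  refine h5.trans ?_
  apply mul_le_mul_of_nonneg_right _ (mul_nonneg ha0 hb0)
  rw [hl]
  have h6 : (2 : ℕ) ^ w.length ≤ 2 ^ 3 := Nat.pow_le_pow_right (by norm_num) hw
  have h7 : ((2 ^ w.length : ℕ) : ℝ) ≤ ((2 ^ 3 : ℕ) : ℝ) := by exact_mod_cast h6
  refine h7.trans ?_
  norm_num

/-- a cutoff function -/
lemma exists_cutoff {a b : ℝ} (ha : 0 < a) (hab : a < b) :
    ∃ χ : ℝ × ℝ → ℝ, Smooth χ ∧ HasCompactSupport χ ∧ (∀ p, 0 ≤ χ p ∧ χ p ≤ 1) ∧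
      (∀ p ∈ closedBall (0 : ℝ × ℝ) a, χ p = 1) ∧
      (∀ p, p ∉ closedBall (0 : ℝ × ℝ) b → χ p = 0) := by
  let χ : ContDiffBump (0 : ℝ × ℝ) := ⟨a, b, ha, hab⟩
  refine ⟨χ, χ.contDiff, χ.hasCompactSupport, fun p => ⟨χ.nonneg, χ.le_one⟩,
    fun p hp => χ.one_of_mem_closedBall hp, fun p hp => χ.zero_of_le_dist ?_⟩
  rw [mem_closedBall, not_le] at hp
  exact hp.le

/-- bounded derivatives -/
lemma exists_bound {χ : ℝ × ℝ → ℝ} (h : Smooth χ) (hc : HasCompactSupport χ) :
    ∃ C : ℝ, 1 ≤ C ∧ ∀ w : List Bool, w.length ≤ 3 → ∀ p, |der w χ p| ≤ C := by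
  have h1 : ∀ w : List Bool, HasCompactSupport (der w χ) := by
    intro w
    induction w with
    | nil => exact hc
    | cons b w ih =>
      cases b
      · exact ih.fderiv_apply ℝ (1, 0)
      · exact ih.fderiv_apply ℝ (0, 1)
  have h2 : ∀ w : List Bool, ∃ C : ℝ, ∀ p, |der w χ p| ≤ C := by
    intro w
    obtain ⟨C, hC⟩ := (h.der w).continuous.bounded_above_of_compact_support (h1 w)
    exact ⟨C, fun p => by simpa using hC p⟩
  choose C hC using h2
  obtain ⟨K, hK⟩ := ((List.finite_length_le Bool 3).image C).bddAbove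
  refine ⟨max 1 K, le_max_left _ _, fun w hw p => (hC w p).trans ?_⟩
  exact (hK ⟨w, hw, rfl⟩).trans (le_max_right _ _)

/-! ### Truncated logarithm -/

noncomputable def Th (m L0 a : ℝ) : ℝ :=
  (1 / m) * Real.log (max (Real.exp (-(m * L0))) (min 1 a))

lemma Th_mono {m L0 a b : ℝ} (hm : 0 < m) (h : a ≤ b) : Th m L0 a ≤ Th m L0 b := by
  unfold Th
  apply mul_le_mul_of_nonneg_left _ (by positivity)
  apply Real.log_le_log
  · exact lt_max_of_lt_left (Real.exp_pos _)
  · exact max_le_max le_rfl (min_le_min le_rfl h)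

lemma Th_cont (m L0 : ℝ) : Continuous (Th m L0) := by
  unfold Th
  apply continuous_const.mul
  apply Continuous.log
  · fun_prop
  · intro x
    exact (lt_max_of_lt_left (Real.exp_pos _)).ne'

lemma Th_nonpos {m L0 : ℝ} (hm : 0 < m) (hL : 0 ≤ L0) (a : ℝ) : Th m L0 a ≤ 0 := by
  unfold Th
  apply mul_nonpos_of_nonneg_of_nonpos (by positivity)
  apply Real.log_nonpos
  · exact (lt_max_of_lt_left (Real.exp_pos _)).le
  · apply max_le _ (min_le_left _ _)
    apply Real.exp_le_one_iff.mpr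
    have := mul_nonneg hm.le hL
    linarith

lemma Th_ge {m L0 : ℝ} (hm : 0 < m) (a : ℝ) : -L0 ≤ Th m L0 a := by
  unfold Th
  have h1 : -(m * L0) ≤ Real.log (max (Real.exp (-(m * L0))) (min 1 a)) := by
    rw [Real.le_log_iff_exp_le (lt_max_of_lt_left (Real.exp_pos _))]
    exact le_max_left _ _
  have h2 : (1 / m) * (-(m * L0)) = -L0 := by field_simp
  rw [← h2]
  exact mul_le_mul_of_nonneg_left h1 (by positivity)

lemma Th_eq {m L0 a : ℝ} (h1 : Real.exp (-(m * L0)) ≤ a) (h2 : a ≤ 1) :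
    Th m L0 a = (1 / m) * Real.log a := by
  unfold Th
  rw [min_eq_right h2, max_eq_right h1]

/-! ### Measure theory -/

lemma area2 (z : ℝ × ℝ) {r : ℝ} (hr : 0 ≤ r) :
    (volume : Measure (ℝ × ℝ)).real (closedBall z r) = (2 * r) ^ 2 := by
  rw [← closedBall_prod_same, Measure.real, Measure.volume_eq_prod, Measure.prod_prod,
    Real.volume_closedBall, Real.volume_closedBall, ← ENNReal.ofReal_mul (by positivity),
    ENNReal.toReal_ofReal (by positivity)]
  ring

lemma area4 (z : (ℝ × ℝ) × (ℝ × ℝ)) {r : ℝ} (hr : 0 ≤ r) :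
    (volume : Measure ((ℝ × ℝ) × (ℝ × ℝ))).real (closedBall z r) = (2 * r) ^ 4 := by
  have h1 := area2 z.1 hr
  have h2 := area2 z.2 hr
  rw [← closedBall_prod_same, Measure.real, Measure.volume_eq_prod, Measure.prod_prod,
    ENNReal.toReal_mul]
  rw [Measure.real] at h1 h2
  rw [h1, h2]
  ring

lemma shift2 (x : ℝ × ℝ) (ρ : ℝ) (F : ℝ × ℝ → ℝ) :
    ∫ z in closedBall x ρ, F z = ∫ w in closedBall (0 : ℝ × ℝ) ρ, F (x + w) := by
  have h := (measurePreserving_add_left (volume : Measure (ℝ × ℝ)) x).setIntegral_preimage_emb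
    (measurableEmbedding_addLeft x) F (closedBall x ρ)
  rw [← h]
  congr 2
  ext w
  simp [mem_closedBall, dist_eq_norm]

lemma shift4 (x : (ℝ × ℝ) × (ℝ × ℝ)) (ρ : ℝ) (F : (ℝ × ℝ) × (ℝ × ℝ) → ℝ) :
    ∫ z in closedBall x ρ, F z =
      ∫ w in closedBall (0 : (ℝ × ℝ) × (ℝ × ℝ)) ρ, F (x + w) := by
  have : (volume : Measure ((ℝ × ℝ) × (ℝ × ℝ))).IsAddLeftInvariant := by
    rw [Measure.volume_eq_prod]
    infer_instance
  have h := (measurePreserving_add_left (volume : Measure ((ℝ × ℝ) × (ℝ × ℝ)))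
    x).setIntegral_preimage_emb (measurableEmbedding_addLeft x) F (closedBall x ρ)
  rw [← h]
  congr 2
  ext w
  simp [mem_closedBall, dist_eq_norm]

lemma index_avg {H : ℝ × ℝ → ℝ} (hH : Continuous H) {x zs y : ℝ × ℝ} {s ρ a : ℝ}
    (hs : 0 ≤ s) (h1 : dist zs x + s ≤ ρ) (h2 : dist y x + s ≤ ρ)
    (h : ∀ z ∈ closedBall zs s, ∀ z' ∈ closedBall y s, a ≤ H z - H z') :
    (2 * s) ^ 4 * a ≤ ∫ p in closedBall ((x, x) : (ℝ × ℝ) × (ℝ × ℝ)) ρ, |H p.2 - H p.1| := by
  have hc : Continuous fun p : (ℝ × ℝ) × (ℝ × ℝ) => |H p.2 - H p.1| := by fun_prop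
  have e1 : ∫ p in closedBall ((zs, y) : (ℝ × ℝ) × (ℝ × ℝ)) s, a = (2 * s) ^ 4 * a := by
    rw [setIntegral_const, area4 _ hs, smul_eq_mul]
  rw [← e1]
  have hi1 : IntegrableOn (fun p : (ℝ × ℝ) × (ℝ × ℝ) => |H p.2 - H p.1|)
      (closedBall ((zs, y) : (ℝ × ℝ) × (ℝ × ℝ)) s) :=
    hc.continuousOn.integrableOn_compact (isCompact_closedBall _ _)
  have hi2 : IntegrableOn (fun p : (ℝ × ℝ) × (ℝ × ℝ) => |H p.2 - H p.1|)
      (closedBall ((x, x) : (ℝ × ℝ) × (ℝ × ℝ)) ρ) :=
    hc.continuousOn.integrableOn_compact (isCompact_closedBall _ _)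
  calc ∫ p in closedBall ((zs, y) : (ℝ × ℝ) × (ℝ × ℝ)) s, a
      ≤ ∫ p in closedBall ((zs, y) : (ℝ × ℝ) × (ℝ × ℝ)) s, |H p.2 - H p.1| := by
        apply setIntegral_mono_on
        · exact integrableOn_const (isCompact_closedBall _ _).measure_lt_top.ne
        · exact hi1
        · exact isClosed_closedBall.measurableSet
        · intro p hp
          rw [← closedBall_prod_same] at hp
          have := h p.1 hp.1 p.2 hp.2
          exact this.trans ((le_abs_self _).trans (by rw [abs_sub_comm]))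
    _ ≤ ∫ p in closedBall ((x, x) : (ℝ × ℝ) × (ℝ × ℝ)) ρ, |H p.2 - H p.1| := by
        apply setIntegral_mono_set hi2
        · exact Filter.Eventually.of_forall fun _ => abs_nonneg _
        · apply LE.le.eventuallyLE
          rw [← closedBall_prod_same zs y s, ← closedBall_prod_same x x ρ]
          apply Set.prod_mono
          · exact closedBall_subset_closedBall' (by linarith)
          · exact closedBall_subset_closedBall' (by linarith)

lemma index_total {H : ℝ × ℝ → ℝ} (hH : Continuous H) {ρ E : ℝ} (hρ : 0 ≤ ρ)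
    (hρ1 : ρ ≤ 1 / 2)
    (h : ∀ ζ : ℝ × ℝ, ‖ζ‖ ≤ 2 * ρ → ∫ z in closedBall (0 : ℝ × ℝ) 1, |H (z + ζ) - H z| ≤ E) :
    IntegrableOn (fun x : ℝ × ℝ => ∫ p in closedBall ((x, x) : (ℝ × ℝ) × (ℝ × ℝ)) ρ,
      |H p.2 - H p.1|) (closedBall (0 : ℝ × ℝ) (1 / 2)) ∧
    ∫ x in closedBall (0 : ℝ × ℝ) (1 / 2),
      ∫ p in closedBall ((x, x) : (ℝ × ℝ) × (ℝ × ℝ)) ρ, |H p.2 - H p.1| ≤ (2 * ρ) ^ 4 * E := by
  have hF : Continuous fun y : (ℝ × ℝ) × ((ℝ × ℝ) × (ℝ × ℝ)) =>
      |H (y.1 + y.2.2) - H (y.1 + y.2.1)| := by fun_prop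
  have e1 : (fun x : ℝ × ℝ => ∫ p in closedBall ((x, x) : (ℝ × ℝ) × (ℝ × ℝ)) ρ,
      |H p.2 - H p.1|) = fun x => ∫ w in closedBall (0 : (ℝ × ℝ) × (ℝ × ℝ)) ρ,
        |H (x + w.2) - H (x + w.1)| := by
    funext x
    rw [shift4]
    rfl
  have hint : Integrable (Function.uncurry fun (x : ℝ × ℝ) (w : (ℝ × ℝ) × (ℝ × ℝ)) =>
      |H (x + w.2) - H (x + w.1)|)
      (((volume : Measure (ℝ × ℝ)).restrict (closedBall (0 : ℝ × ℝ) (1 / 2))).prod
        ((volume : Measure ((ℝ × ℝ) × (ℝ × ℝ))).restrict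
          (closedBall (0 : (ℝ × ℝ) × (ℝ × ℝ)) ρ))) := by
    rw [Measure.prod_restrict]
    have : IntegrableOn (fun y : (ℝ × ℝ) × ((ℝ × ℝ) × (ℝ × ℝ)) =>
      |H (y.1 + y.2.2) - H (y.1 + y.2.1)|) (closedBall (0 : ℝ × ℝ) (1 / 2) ×ˢ
        closedBall (0 : (ℝ × ℝ) × (ℝ × ℝ)) ρ) volume :=
      hF.continuousOn.integrableOn_compact ((isCompact_closedBall _ _).prod
        (isCompact_closedBall _ _))
    exact this
  constructor
  · rw [e1]
    exact hint.integral_prod_left
  · rw [show (∫ x in closedBall (0 : ℝ × ℝ) (1 / 2),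
      ∫ p in closedBall ((x, x) : (ℝ × ℝ) × (ℝ × ℝ)) ρ, |H p.2 - H p.1|) =
      ∫ x in closedBall (0 : ℝ × ℝ) (1 / 2), ∫ w in closedBall (0 : (ℝ × ℝ) × (ℝ × ℝ)) ρ,
        |H (x + w.2) - H (x + w.1)| from by rw [e1]]
    rw [integral_integral_swap hint]
    have h2 : ∀ w ∈ closedBall (0 : (ℝ × ℝ) × (ℝ × ℝ)) ρ,
        ‖∫ x in closedBall (0 : ℝ × ℝ) (1 / 2), |H (x + w.2) - H (x + w.1)|‖ ≤ E := by
      intro w hw
      have hw1 : ‖w.1‖ ≤ ρ := (norm_fst_le w).trans (by simpa using hw)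
      have hw2 : ‖w.2‖ ≤ ρ := (norm_snd_le w).trans (by simpa using hw)
      rw [Real.norm_of_nonneg (integral_nonneg fun _ => abs_nonneg _)]
      have e2 : ∫ x in closedBall (0 : ℝ × ℝ) (1 / 2), |H (x + w.2) - H (x + w.1)| =
          ∫ z in closedBall w.1 (1 / 2), |H (z + (w.2 - w.1)) - H z| := by
        rw [shift2 w.1]
        congr 1
        funext x
        have a1 : x + w.2 = w.1 + x + (w.2 - w.1) := by abel
        have a2 : x + w.1 = w.1 + x := add_comm _ _
        rw [a1, a2]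
      rw [e2]
      have hc : Continuous fun z : ℝ × ℝ => |H (z + (w.2 - w.1)) - H z| := by fun_prop
      refine le_trans ?_ (h (w.2 - w.1) ?_)
      · apply setIntegral_mono_set (hc.continuousOn.integrableOn_compact (isCompact_closedBall _ _))
        · exact Filter.Eventually.of_forall fun _ => abs_nonneg _
        · apply LE.le.eventuallyLE
          apply closedBall_subset_closedBall'
          rw [dist_zero_right]
          linarith
      · calc ‖w.2 - w.1‖ ≤ ‖w.2‖ + ‖w.1‖ := norm_sub_le _ _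
          _ ≤ 2 * ρ := by linarith
    have h3 := norm_setIntegral_le_of_norm_le_const
      (μ := (volume : Measure ((ℝ × ℝ) × (ℝ × ℝ))))
      (isCompact_closedBall (0 : (ℝ × ℝ) × (ℝ × ℝ)) ρ).measure_lt_top h2
    rw [area4 _ hρ] at h3
    calc _ ≤ ‖∫ w in closedBall (0 : (ℝ × ℝ) × (ℝ × ℝ)) ρ,
          ∫ x in closedBall (0 : ℝ × ℝ) (1 / 2), |H (x + w.2) - H (x + w.1)|‖ := Real.le_norm_self _
      _ ≤ E * (2 * ρ) ^ 4 := h3
      _ = (2 * ρ) ^ 4 * E := mul_comm _ _

lemma sol_mono {q u : ℝ × ℝ → ℝ} {Λ : ℝ} {S T : Set (ℝ × ℝ)} (h : Sol q u Λ S)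
    (hT : T ⊆ S) : Sol q u Λ T where
  smooth_q := h.smooth_q
  smooth_u := h.smooth_u
  eq := fun p hp => h.eq p (hT hp)
  bq := fun p hp => h.bq p (hT hp)
  bq1 := fun p hp => h.bq1 p (hT hp)
  bq2 := fun p hp => h.bq2 p (hT hp)

/-- pigeonhole -/
lemma pigeon {n : ℕ} (hn : 0 < n) {a : ℕ → ℝ} {X : ℝ} (h : a n - a 0 ≤ X) :
    ∃ k < n, a (k + 1) - a k ≤ X / n := by
  by_contra hcon
  push Not at hcon
  have hn' : (0 : ℝ) < n := by exact_mod_cast hn
  have h1 : ∑ k ∈ Finset.range n, X / (n : ℝ) < ∑ k ∈ Finset.range n, (a (k + 1) - a k) := by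
    apply Finset.sum_lt_sum_of_nonempty
    · exact ⟨0, Finset.mem_range.mpr hn⟩
    · intro k hk
      exact hcon k (Finset.mem_range.mp hk)
  rw [Finset.sum_range_sub, Finset.sum_const, Finset.card_range, nsmul_eq_mul,
    mul_div_cancel₀ _ hn'.ne'] at h1
  linarith

end Pool.Agent.H26.Yau
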